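import Pool.Agent.Helper19.HN.St

/-! # HN: the least upper bound reflects (module LUR) -/

namespace Pool.Agent.Helper58.HN.LUR

open Ordinal Cardinal ZFSet Order Pool.Agent.Helper73.HODC Pool.Agent.Helper73.HM
open Pool.Agent.Helper73.HE Pool.Agent.Helper73.HU Pool.Agent.Helper19.HN

theorem lur (h1 : StRK) (h2 : StDC) (h3 : StBND) : StLUR := by
  intro c A X z y hc hA hX hS
  have hcof : ℵ₀ < c.ord.cof := hA.cof
  have hc' : ℵ₀ < c := by rw [← hc.cof_ord]; exact hcof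
  obtain ⟨rk, hrk⟩ := h1 c.ord A hA
  obtain ⟨μ, C0, hC0, hB⟩ := h3 c {k | k < c.ord ∧ Kz c.ord A z (X k)} (fun k => rk (X k)) hc hc'
  -- (a)
  obtain ⟨C1, hC1, ha⟩ := AE_refl_diag hc hc' (A := A)
    (Q := fun k i => Kz c.ord A z (X k) → lt i (cut (X k) i) (y i)) (by
      intro k _
      by_cases hk : Kz c.ord A z (X k)
      · exact (hS.lub.1 (X k) hk).mono fun i _ _ h _ => h
      · exact AE_of_forall hcof fun i _ _ h => absurd h hk)
  -- (b)
  obtain ⟨C2, hC2, hb⟩ := AE_refl hcof hS.low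
  -- (c)
  have hcc : AE c.ord A (fun i => ∀ k < i, ∀ l < i, rk (X k) ≤ rk (X l) →
      ¬ Less (cut (X l) i) (cut (X k) i)) := by
    refine AE_diag2 hc hc' (Q := fun k l i => rk (X k) ≤ rk (X l) →
      ¬ Less (cut (X l) i) (cut (X k) i)) fun k hk l hl => ?_
    by_cases h : rk (X k) ≤ rk (X l)
    · have hkl := hrk (X k) (hX.1 k hk) (X l) (hX.1 l hl)
      rcases lt_or_eq_of_le h with h' | h'
      · have hp : Prec c.ord A (X k) (X l) := hkl.1.2 h'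
        exact AE.mono hp fun i _ _ h4 _ h5 => less_irrefl _ (less_trans h5 h4)
      · have he : X k = X l := hkl.2 h'
        exact AE_of_forall hcof fun i _ _ _ h5 => by
          rw [he] at h5
          exact less_irrefl _ h5
    · exact AE_of_forall hcof fun i _ _ h5 => absurd h5 h
  obtain ⟨C3, hC3, hcc⟩ := AE_refl hcof hcc
  refine ⟨μ, C0 ∩ C1 ∩ (C2 ∩ C3), (hC0.inter hcof hC1).inter hcof (hC2.inter hcof hC3), ?_⟩
  rintro ρ ⟨⟨hρ0, hρ1⟩, hρ2, hρ3⟩ hρc hρcof hρμ hat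
  have ha := ha ρ hρ1 hρc
  have hb := hb ρ hρ2 hρc
  have hcc := hcc ρ hρ3 hρc
  have hA' : Atm ρ A := ⟨hρcof, hA.dps, hat⟩
  obtain ⟨w, hw, hwG⟩ := h2 ρ A (fun x => x ∈ hodPow ρ ∧ ∃ k < ρ, Kz c.ord A z (X k) ∧
      (x = cut (X k) ρ ∨ Prec ρ A x (cut (X k) ρ))) hA' (fun x hx => hx.1) (by
    rintro x x' ⟨_, k, hk, hK, h⟩ hx' hp
    refine ⟨hx', k, hk, hK, Or.inr ?_⟩
    rcases h with h | h
    · rw [← h]; exact hp
    · exact Prec.tr hA' hp h)
  refine ⟨w, hw, ?_, ?_⟩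
  · -- upper bound
    intro x hx
    obtain ⟨hxm, k, hk, hK, h⟩ := (hwG x).2 hx
    have hak := ha k hk
    rcases h with h | h
    · refine hak.mono fun i _ hi h4 => ?_
      have h5 := h4 hK
      rw [h, cut_cut hi.le]
      exact h5
    · refine (AE.and hρcof hak h).mono fun i _ hi h4 => ?_
      have h5 := h4.1 hK
      have h6 := h4.2
      rw [cut_cut hi.le] at h6
      exact lt_tr ⟨cut_mem hxm i, fun _ => h6⟩ h5
  · -- least
    intro U' hU'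
    rw [AE_iff]
    intro hst
    have hS0 : Stat {i | i ∈ A ∧ lt i (U' i) (y i)} ρ :=
      hst.mono fun a ha' _ => ⟨ha'.1, not_not.1 ha'.2⟩
    have hS1 := stat_AE hρcof hS0 (fun a ha' => ha'.1) hb
    have hch : ∀ i, ∃ k, (i ∈ {a | a ∈ {i | i ∈ A ∧ lt i (U' i) (y i)} ∧
        ∀ q, lt a q (y a) → ∃ k < a, q = cut (X k) a ∧ Kz c.ord A z (X k)}) →
        k < i ∧ U' i = cut (X k) i ∧ Kz c.ord A z (X k) := by
      intro i
      by_cases hi : i ∈ {a | a ∈ {i | i ∈ A ∧ lt i (U' i) (y i)} ∧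
        ∀ q, lt a q (y a) → ∃ k < a, q = cut (X k) a ∧ Kz c.ord A z (X k)}
      · obtain ⟨k, hk, h4, h5⟩ := hi.2 (U' i) hi.1.2
        exact ⟨k, fun _ => ⟨hk, h4, h5⟩⟩
      · exact ⟨0, fun h => absurd h hi⟩
    choose r hr using hch
    obtain ⟨k', hk', hkD, hS2⟩ := hB ρ hρ0 hρc hρcof hρμ _ r hS1 (fun i hi hiρ =>
      ⟨(hr i hi).1, ((hr i hi).1.trans hiρ).trans hρc, (hr i hi).2.2⟩)
    have hG : Kz ρ A w (cut (X k') ρ) := (hwG _).1
      ⟨cut_mem (hX.1 k' hkD.1) ρ, k', hk', hkD.2, Or.inl rfl⟩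
    have hall := ((hU' _ hG).and hρcof hcc).and hρcof (AE_gt hρcof A hk')
    obtain ⟨i, hi, hiρ, ⟨h4, h5⟩, h6⟩ := stat_AE_exists hρcof hS2 (fun a ha' => ha'.1.1.1) hall
    obtain ⟨h7, h8, h9⟩ := hr i hi.1
    have hri : r i < c.ord := (h7.trans hiρ).trans hρc
    have h10 : U' i ∈ hodPow i := by
      rw [h8]
      exact cut_mem (hX.1 _ hri) i
    have h11 := h4.2 h10
    rw [cut_cut hiρ.le, h8] at h11
    exact h5 (r i) h7 k' h6 hi.2 h11

end Pool.Agent.Helper58.HN.LUR
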